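import Pool.Agent.Y694.T6.Stm

/-!
# Project T6: asymptotics (ASY)
-/

set_option autoImplicit false

open Filter Topology

namespace Pool.Agent.Y761.T6

open Pool.Agent.Y694.T6

theorem t_asy : Asy := by
  intro z hz hzC C
  obtain ⟨C₀, hC₀⟩ : ∃ C₀ : ℝ, C₀ = |C| := ⟨_, rfl⟩
  have hC₀0 : 0 ≤ C₀ := by rw [hC₀]; exact abs_nonneg C
  have hCC : C ≤ C₀ := by rw [hC₀]; exact le_abs_self C
  obtain ⟨K, hK⟩ : ∃ K : ℝ, K = Real.exp (2 * (C₀ + 3)) := ⟨_, rfl⟩
  have hK1 : 1 ≤ K := by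
    rw [hK]
    exact Real.one_le_exp (by positivity)
  obtain ⟨L, hL⟩ := exists_nat_ge (18 * K)
  have hL18 : 18 ≤ L := by
    have : (18 : ℝ) ≤ L := by linarith
    exact_mod_cast this
  obtain ⟨B, hB⟩ : ∃ B : ℝ, B = 42 * Real.exp C₀ := ⟨_, rfl⟩
  have hB1 : 1 ≤ B := by
    have : 1 ≤ Real.exp C₀ := Real.one_le_exp hC₀0
    rw [hB]
    linarith
  obtain ⟨D, hD⟩ : ∃ D : ℝ, D = B ^ L := ⟨_, rfl⟩
  have hD1 : 1 ≤ D := by
    rw [hD]
    exact one_le_pow₀ hB1
  have hD0 : 0 < D := by linarith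
  have h1 : ∀ᶠ s : ℕ in atTop, 3 * D ^ (s + 1) ≤ (s.factorial : ℝ) := by
    have h2 := (FloorSemiring.tendsto_pow_div_factorial_atTop D).eventually
      (gt_mem_nhds (show (0 : ℝ) < 1 / (3 * D) by positivity))
    filter_upwards [h2] with s hs
    rw [div_lt_div_iff₀ (by positivity) (by positivity)] at hs
    rw [pow_succ]
    linarith
  obtain ⟨N1, hN1⟩ := eventually_atTop.1 h1
  obtain ⟨N2, hN2⟩ := eventually_atTop.1 (hzC (Real.log (18 * D ^ 2)))
  rw [eventually_atTop]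
  refine ⟨L * (N1 + N2 + 4), fun r hr => ?_⟩
  obtain ⟨s, hs⟩ : ∃ s, s = r / L := ⟨_, rfl⟩
  have hsN : N1 + N2 + 4 ≤ s := by
    rw [hs, Nat.le_div_iff_mul_le (by omega)]
    rw [mul_comm]
    exact hr
  have hLs : L * s ≤ r := by
    rw [hs]
    exact Nat.mul_div_le r L
  have hLs2 : r ≤ L * (s + 1) := by
    rw [hs]
    exact (Nat.lt_mul_div_succ r (by omega)).le
  have h18 : 18 * s ≤ r := (Nat.mul_le_mul_right s hL18).trans hLs
  obtain ⟨m, hm⟩ : ∃ m, m = r - 2 * s - 1 := ⟨_, rfl⟩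
  obtain ⟨j, hj⟩ : ∃ j, s = j + 1 := ⟨s - 1, by omega⟩
  have hrm : r = (s + (j + 1)) + m + 1 := by omega
  refine ⟨m, s, j, hrm, ?_⟩
  have hBr : B ^ r ≤ D ^ (s + 1) := by
    rw [hD, ← pow_mul]
    exact pow_le_pow_right₀ hB1 hLs2
  have hexpr : Real.exp (C₀ * r) = Real.exp C₀ ^ r := by
    rw [← Real.exp_nat_mul, mul_comm]
  have hE : 0 < Real.exp (C₀ * r) := Real.exp_pos _
  have hfin : Real.exp (-C₀ * r) ≤ Real.exp (-C * r) := by
    apply Real.exp_le_exp.2
    have : (0 : ℝ) ≤ r := Nat.cast_nonneg r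
    nlinarith
  have hneg : Real.exp (-C₀ * r) * Real.exp (C₀ * r) = 1 := by
    rw [← Real.exp_add]
    ring_nf
    exact Real.exp_zero
  -- first term
  have hA : 7 ^ m * (7 ^ (j + 1) * (6 ^ s / (s.factorial : ℝ))) ≤ Real.exp (-C₀ * r) / 3 := by
    have hsf : (0 : ℝ) < s.factorial := by positivity
    have e1 : (7 : ℝ) ^ m * (7 ^ (j + 1) * (6 ^ s / (s.factorial : ℝ))) =
        7 ^ (m + (j + 1)) * 6 ^ s / s.factorial := by
      rw [pow_add]
      ring
    rw [e1, div_le_div_iff₀ hsf (by norm_num)]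
    have e2 : (7 : ℝ) ^ (m + (j + 1)) ≤ 7 ^ r := pow_le_pow_right₀ (by norm_num) (by omega)
    have e3 : (6 : ℝ) ^ s ≤ 6 ^ r := pow_le_pow_right₀ (by norm_num) (by omega)
    have e4 : (7 : ℝ) ^ (m + (j + 1)) * 6 ^ s ≤ 42 ^ r := by
      calc (7 : ℝ) ^ (m + (j + 1)) * 6 ^ s ≤ 7 ^ r * 6 ^ r := by gcongr
        _ = 42 ^ r := by rw [← mul_pow]; norm_num
    have e5 := hN1 s (by omega)
    have e6 : 42 ^ r * Real.exp (C₀ * r) = B ^ r := by
      rw [hexpr, hB, mul_pow]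
    have e7 : 3 * (42 ^ r * Real.exp (C₀ * r)) ≤ s.factorial := by
      rw [e6]
      calc 3 * B ^ r ≤ 3 * D ^ (s + 1) := by linarith
        _ ≤ s.factorial := e5
    calc 7 ^ (m + (j + 1)) * 6 ^ s * 3 ≤ (42 : ℝ) ^ r * 3 := by gcongr
      _ = Real.exp (-C₀ * r) * (3 * (42 ^ r * Real.exp (C₀ * r))) := by
        rw [show Real.exp (-C₀ * r) * (3 * (42 ^ r * Real.exp (C₀ * r))) =
          (Real.exp (-C₀ * r) * Real.exp (C₀ * r)) * (42 ^ r * 3) by ring, hneg, one_mul]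
      _ ≤ Real.exp (-C₀ * r) * s.factorial := by gcongr
  -- second term
  have hBt : 7 ^ m * (6 * z j) ≤ Real.exp (-C₀ * r) / 3 := by
    have e1 := hN2 j (by omega)
    have e2 : Real.exp (-Real.log (18 * D ^ 2) * j) * (18 * D ^ 2) ^ j = 1 := by
      have e3 : (18 * D ^ 2) ^ j = Real.exp (Real.log (18 * D ^ 2) * j) := by
        rw [mul_comm (Real.log (18 * D ^ 2)), Real.exp_nat_mul, Real.exp_log (by positivity)]
      rw [e3, ← Real.exp_add]
      ring_nf
      exact Real.exp_zero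
    have e3 : (7 : ℝ) ^ m ≤ 42 ^ r :=
      calc (7 : ℝ) ^ m ≤ 42 ^ m := by gcongr; norm_num
        _ ≤ 42 ^ r := pow_le_pow_right₀ (by norm_num) (by omega)
    have e4 : 18 * B ^ r ≤ (18 * D ^ 2) ^ j := by
      rw [mul_pow, ← pow_mul]
      have e5 : (18 : ℝ) ≤ 18 ^ j := by
        calc (18 : ℝ) = 18 ^ 1 := by norm_num
          _ ≤ 18 ^ j := pow_le_pow_right₀ (by norm_num) (by omega)
      have e6 : B ^ r ≤ D ^ (2 * j) := hBr.trans (pow_le_pow_right₀ hD1 (by omega))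
      have : 0 ≤ B ^ r := by positivity
      calc 18 * B ^ r ≤ 18 ^ j * B ^ r := by gcongr
        _ ≤ 18 ^ j * D ^ (2 * j) := by gcongr
    have e5 : 42 ^ r * Real.exp (C₀ * r) = B ^ r := by
      rw [hexpr, hB, mul_pow]
    have hzj := hz j
    have e6 : 18 * B ^ r * z j ≤ 1 := by
      calc 18 * B ^ r * z j ≤ (18 * D ^ 2) ^ j * Real.exp (-Real.log (18 * D ^ 2) * j) := by
            gcongr
        _ = 1 := by rw [mul_comm]; exact e2
    have e7 : 7 ^ m * (6 * z j) * 3 ≤ Real.exp (-C₀ * r) := by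
      calc 7 ^ m * (6 * z j) * 3 = 7 ^ m * (18 * z j) := by ring
        _ ≤ 42 ^ r * (18 * z j) := by gcongr
        _ = Real.exp (-C₀ * r) * (18 * (42 ^ r * Real.exp (C₀ * r)) * z j) := by
          rw [show Real.exp (-C₀ * r) * (18 * (42 ^ r * Real.exp (C₀ * r)) * z j) =
            (Real.exp (-C₀ * r) * Real.exp (C₀ * r)) * (42 ^ r * (18 * z j)) by ring, hneg,
            one_mul]
        _ ≤ Real.exp (-C₀ * r) * 1 := by
          rw [e5]
          gcongr
        _ = Real.exp (-C₀ * r) := mul_one _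
    linarith
  -- third term
  have hCt : (6 * (((s + (j + 1) : ℕ) : ℝ) + 1)) ^ m / (m.factorial : ℝ) ≤
      Real.exp (-C₀ * r) / 3 := by
    obtain ⟨a, ha⟩ : ∃ a : ℝ, a = 6 * (((s + (j + 1) : ℕ) : ℝ) + 1) := ⟨_, rfl⟩
    rw [← ha]
    have ha2 : a = 12 * s + 6 := by
      rw [ha, ← hj]
      push_cast
      ring
    have ha0 : 0 ≤ a := by rw [ha2]; positivity
    have hLsR : (L : ℝ) * s ≤ r := by exact_mod_cast hLs
    have hLrR : (L : ℝ) ≤ r := by
      have : L ≤ r := (Nat.le_mul_of_pos_right L (by omega : 0 < s)).trans hLs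
      exact_mod_cast this
    have hs0 : (0 : ℝ) ≤ s := Nat.cast_nonneg s
    have hKa : K * a ≤ r := by
      rw [ha2]
      nlinarith
    have e1 := Real.pow_div_factorial_le_exp (K * a) (by positivity) m
    have hmf : (0 : ℝ) < m.factorial := by positivity
    have e2 : (K * a) ^ m / (m.factorial : ℝ) = K ^ m * (a ^ m / m.factorial) := by
      rw [mul_pow, mul_div_assoc]
    rw [e2] at e1
    have e3 : K ^ m = Real.exp (2 * (C₀ + 3) * m) := by
      rw [hK, ← Real.exp_nat_mul, mul_comm]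
    have e4 : (r : ℝ) ≤ 2 * m := by
      have : r ≤ 2 * m := by omega
      exact_mod_cast this
    have e5 : Real.exp ((C₀ + 3) * r) ≤ K ^ m := by
      rw [e3]
      apply Real.exp_le_exp.2
      nlinarith
    have e6 : 0 ≤ a ^ m / (m.factorial : ℝ) := by positivity
    have e7 : Real.exp ((C₀ + 3) * r) * (a ^ m / m.factorial) ≤ Real.exp r := by
      calc Real.exp ((C₀ + 3) * r) * (a ^ m / m.factorial) ≤ K ^ m * (a ^ m / m.factorial) := by
            gcongr
        _ ≤ Real.exp (K * a) := e1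
        _ ≤ Real.exp r := Real.exp_le_exp.2 hKa
    have e8 : a ^ m / m.factorial ≤ Real.exp (-(C₀ + 2) * r) := by
      have e9 : Real.exp ((C₀ + 3) * r) * Real.exp (-(C₀ + 2) * r) = Real.exp r := by
        rw [← Real.exp_add]
        congr 1
        ring
      have e10 := Real.exp_pos ((C₀ + 3) * r)
      rw [← e9] at e7
      exact le_of_mul_le_mul_left e7 e10
    have hr1 : (1 : ℝ) ≤ r := by
      have : 1 ≤ r := by omega
      exact_mod_cast this
    have e9 : Real.exp (-(C₀ + 2) * r) = Real.exp (-C₀ * r) * Real.exp (-(2 * r)) := by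
      rw [← Real.exp_add]
      congr 1
      ring
    have e10 : Real.exp (-(2 * (r : ℝ))) ≤ 1 / 3 := by
      rw [Real.exp_neg, ← one_div]
      apply one_div_le_one_div_of_le (by norm_num)
      have := Real.add_one_le_exp (2 * (r : ℝ))
      linarith
    calc a ^ m / m.factorial ≤ Real.exp (-C₀ * r) * Real.exp (-(2 * r)) := by
          rw [← e9]; exact e8
      _ ≤ Real.exp (-C₀ * r) * (1 / 3) := by gcongr
      _ = Real.exp (-C₀ * r) / 3 := by ring
  rw [mul_add]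
  linarith

end Pool.Agent.Y761.T6
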