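import Pool.Agent.Y694.T6.Stm

/-!
# Project T6: statuses on the 5-ary tree (TAE) and the recursion for the survival probabilities (REC)
-/

set_option autoImplicit false

open MeasureTheory ProbabilityTheory Filter Topology
open scoped ENNReal

namespace Pool.Agent.Y761.T6

open Pool.Agent.Y694.T6

/-- labellings of the tree -/
abbrev Lt : Type := List (Fin 5) → ℝ

theorem meas_root : Measurable fun η : Lt => η [] := measurable_pi_apply _

/-- the law of the first step -/
theorem law_step (hS : SelfSim) (i : Fin 5) (B : Set ℝ) (hB : MeasurableSet B)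
    (A : Fin 5 → Set Lt) (hA : ∀ j, MeasurableSet (A j)) :
    P (List (Fin 5)) {ω | ω [] ∈ B ∧ ω [i] < ω [] ∧ ∀ j, sh j ω ∈ A j} =
      ∫⁻ y in B, P (List (Fin 5)) {η | η ∈ A i ∧ η [] < y} *
        ∏ j ∈ Finset.univ.erase i, P (List (Fin 5)) (A j) ∂lab := by
  classical
  obtain ⟨S, hSdef⟩ : ∃ S : Set (ℝ × (Fin 5 → Lt)), S =
      {p | p.1 ∈ B ∧ p.2 i [] < p.1 ∧ ∀ j, p.2 j ∈ A j} := ⟨_, rfl⟩
  have hSm : MeasurableSet S := by
    rw [hSdef]
    refine (measurable_fst hB).inter (MeasurableSet.inter ?_ ?_)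
    · exact measurableSet_lt (meas_root.comp ((measurable_pi_apply i).comp measurable_snd))
        measurable_fst
    · have h1 : {p : ℝ × (Fin 5 → Lt) | ∀ j, p.2 j ∈ A j} = ⋂ j, {p | p.2 j ∈ A j} := by
        ext p
        simp
      change MeasurableSet {p : ℝ × (Fin 5 → Lt) | ∀ j, p.2 j ∈ A j}
      rw [h1]
      exact MeasurableSet.iInter fun j => ((measurable_pi_apply j).comp measurable_snd) (hA j)
  have h1 : {ω : Lt | ω [] ∈ B ∧ ω [i] < ω [] ∧ ∀ j, sh j ω ∈ A j} =
      (fun ω : Lt => (ω [], fun i : Fin 5 => sh i ω)) ⁻¹' S := by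
    rw [hSdef]
    rfl
  rw [h1, hS.measure_preimage hSm.nullMeasurableSet, Measure.prod_apply hSm,
    ← lintegral_indicator hB]
  refine lintegral_congr fun y => ?_
  by_cases hy : y ∈ B
  · rw [Set.indicator_of_mem hy]
    have h2 : (Prod.mk y ⁻¹' S) = Set.pi Set.univ
        (fun j => if j = i then {η | η ∈ A i ∧ η [] < y} else A j) := by
      rw [hSdef]
      ext η
      simp only [Set.mem_preimage, Set.mem_ofPred_eq, Set.mem_pi, Set.mem_univ, true_implies]
      constructor
      · rintro ⟨_, h3, h4⟩ j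
        split_ifs with hj
        · subst hj
          exact ⟨h4 j, h3⟩
        · exact h4 j
      · intro h3
        have h4 := h3 i
        rw [if_pos rfl] at h4
        refine ⟨hy, h4.2, fun j => ?_⟩
        by_cases hj : j = i
        · subst hj
          exact h4.1
        · have h5 := h3 j
          rw [if_neg hj] at h5
          exact h5
    rw [h2, Measure.pi_pi, ← Finset.mul_prod_erase Finset.univ _ (Finset.mem_univ i), if_pos rfl]
    congr 1
    refine Finset.prod_congr rfl fun j hj => ?_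
    rw [if_neg (Finset.ne_of_mem_erase hj)]
  · rw [Set.indicator_of_notMem hy]
    have h2 : (Prod.mk y ⁻¹' S) = ∅ := by
      rw [hSdef]
      ext η
      simp only [Set.mem_preimage, Set.mem_ofPred_eq, Set.mem_empty_iff_false, iff_false]
      exact fun h => hy h.1
    rw [h2, measure_empty]

section tae

/-- the undetermined set -/
def Un (r : ℕ) : Set Lt := {ω | ¬ tst r true ω ∧ ¬ tst r false ω}

theorem meas_Un (hM : TstMeas) (r : ℕ) : MeasurableSet (Un r) :=
  (hM r true).compl.inter (hM r false).compl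

theorem Un_succ (r : ℕ) (ω : Lt) (h : ω ∈ Un (r + 1)) :
    ∃ i, ω [i] < ω [] ∧ sh i ω ∈ Un r := by
  obtain ⟨h1, h2⟩ := h
  have h3 : ¬ ∀ i, ω [i] < ω [] → tst r false (sh i ω) := h1
  push Not at h3
  obtain ⟨i, hi, h4⟩ := h3
  refine ⟨i, hi, fun h5 => ?_, h4⟩
  exact h2 ⟨i, hi, h5⟩

theorem step_le (hS : SelfSim) (hM : TstMeas) (r : ℕ) (B : Set ℝ) (hB : MeasurableSet B) :
    P (List (Fin 5)) {ω | ω ∈ Un (r + 1) ∧ ω [] ∈ B} ≤
      5 * ∫⁻ y in B, P (List (Fin 5)) {η | η ∈ Un r ∧ η [] < y} ∂lab := by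
  classical
  have h1 : {ω : Lt | ω ∈ Un (r + 1) ∧ ω [] ∈ B} ⊆ ⋃ i : Fin 5,
      {ω | ω [] ∈ B ∧ ω [i] < ω [] ∧ ∀ j, sh j ω ∈ (if j = i then Un r else Set.univ)} := by
    rintro ω ⟨h, hB⟩
    obtain ⟨i, hi, h2⟩ := Un_succ r ω h
    refine Set.mem_iUnion.2 ⟨i, hB, hi, fun j => ?_⟩
    split_ifs with hj
    · rw [hj]
      exact h2
    · exact Set.mem_univ _
  refine (measure_mono h1).trans ((measure_iUnion_le _).trans ?_)
  rw [tsum_fintype]
  have h3 : ∀ i : Fin 5, P (List (Fin 5)) {ω | ω [] ∈ B ∧ ω [i] < ω [] ∧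
      ∀ j, sh j ω ∈ (if j = i then Un r else Set.univ)} =
      ∫⁻ y in B, P (List (Fin 5)) {η | η ∈ Un r ∧ η [] < y} ∂lab := by
    intro i
    rw [law_step hS i B hB (fun j => if j = i then Un r else Set.univ) (fun j => by
      split_ifs
      · exact meas_Un hM r
      · exact MeasurableSet.univ)]
    refine lintegral_congr fun y => ?_
    rw [if_pos rfl, Finset.prod_congr rfl (g := fun _ => (1 : ℝ≥0∞)) fun j hj => by
      rw [if_neg (Finset.ne_of_mem_erase hj), measure_univ], Finset.prod_const_one, mul_one]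
  rw [Finset.sum_congr rfl fun i _ => h3 i, Finset.sum_const, Finset.card_univ, Fintype.card_fin,
    nsmul_eq_mul]
  norm_num

theorem un_bound (hS : SelfSim) (hM : TstMeas) (r : ℕ) : ∀ x : ℝ, 0 ≤ x →
    P (List (Fin 5)) {ω | ω ∈ Un r ∧ ω [] < x} ≤
      ENNReal.ofReal ((1 / 2) ^ r * Real.exp (10 * x)) := by
  induction r with
  | zero =>
    intro x hx
    refine prob_le_one.trans ?_
    rw [pow_zero, one_mul, ← ENNReal.ofReal_one]
    exact ENNReal.ofReal_le_ofReal (Real.one_le_exp (by positivity))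
  | succ r ih =>
    intro x hx
    refine (step_le hS hM r (Set.Iio x) measurableSet_Iio).trans ?_
    have h1 : ∫⁻ y in Set.Iio x, P (List (Fin 5)) {η | η ∈ Un r ∧ η [] < y} ∂lab ≤
        ∫⁻ y in Set.Iic x, ENNReal.ofReal ((1 / 2) ^ r * Real.exp (10 * y)) := by
      have h2 : lab.restrict (Set.Iio x) =
          (volume.restrict (Set.Iic x ∩ (Set.Iio x ∩ Set.Icc 0 1))) := by
        rw [lab, Measure.restrict_restrict measurableSet_Iio]
        congr 1
        ext y
        simp only [Set.mem_inter_iff, Set.mem_Iio, Set.mem_Icc, Set.mem_Iic]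
        constructor
        · rintro ⟨h3, h4⟩
          exact ⟨h3.le, h3, h4⟩
        · rintro ⟨_, h3, h4⟩
          exact ⟨h3, h4⟩
      rw [h2]
      refine (setLIntegral_mono' (measurableSet_Iic.inter
        (measurableSet_Iio.inter measurableSet_Icc)) fun y hy => ih y hy.2.2.1).trans ?_
      exact lintegral_mono_set Set.inter_subset_left
    have h3 : ∫⁻ y in Set.Iic x, ENNReal.ofReal ((1 / 2) ^ r * Real.exp (10 * y)) =
        ENNReal.ofReal ((1 / 2) ^ r * (Real.exp (10 * x) / 10)) := by
      rw [← ofReal_integral_eq_lintegral_ofReal]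
      · rw [integral_const_mul, integral_exp_mul_Iic (by norm_num)]
      · exact (integrableOn_exp_mul_Iic (by norm_num) x).const_mul _
      · exact Eventually.of_forall fun y => by positivity
    rw [h3] at h1
    calc 5 * ∫⁻ y in Set.Iio x, P (List (Fin 5)) {η | η ∈ Un r ∧ η [] < y} ∂lab
        ≤ 5 * ENNReal.ofReal ((1 / 2) ^ r * (Real.exp (10 * x) / 10)) := by gcongr
      _ = ENNReal.ofReal ((1 / 2) ^ (r + 1) * Real.exp (10 * x)) := by
        rw [show (5 : ℝ≥0∞) = ENNReal.ofReal 5 by norm_num, ← ENNReal.ofReal_mul (by norm_num)]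
        congr 1
        ring

theorem un_total (hS : SelfSim) (hM : TstMeas) (r : ℕ) :
    P (List (Fin 5)) (Un (r + 1)) ≤ ENNReal.ofReal (5 * Real.exp 10 * (1 / 2) ^ r) := by
  have h1 := step_le hS hM r Set.univ MeasurableSet.univ
  have h2 : {ω : Lt | ω ∈ Un (r + 1) ∧ ω [] ∈ Set.univ} = Un (r + 1) := by
    ext ω
    simp
  rw [h2, Measure.restrict_univ] at h1
  refine h1.trans ?_
  have h3 : ∫⁻ y, P (List (Fin 5)) {η | η ∈ Un r ∧ η [] < y} ∂lab ≤
      ENNReal.ofReal ((1 / 2) ^ r * Real.exp 10) := by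
    rw [lab]
    refine (setLIntegral_mono' (g := fun _ => ENNReal.ofReal ((1 / 2) ^ r * Real.exp 10))
      measurableSet_Icc fun y hy => ?_).trans ?_
    · refine (un_bound hS hM r y hy.1).trans (ENNReal.ofReal_le_ofReal ?_)
      have : Real.exp (10 * y) ≤ Real.exp 10 := Real.exp_le_exp.2 (by linarith [hy.2])
      gcongr
    · rw [setLIntegral_const]
      simp
  calc 5 * ∫⁻ y, P (List (Fin 5)) {η | η ∈ Un r ∧ η [] < y} ∂lab
      ≤ 5 * ENNReal.ofReal ((1 / 2) ^ r * Real.exp 10) := by gcongr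
    _ = ENNReal.ofReal (5 * Real.exp 10 * (1 / 2) ^ r) := by
      rw [show (5 : ℝ≥0∞) = ENNReal.ofReal 5 by norm_num, ← ENNReal.ofReal_mul (by norm_num)]
      congr 1
      ring

theorem t_tstAe (hS : SelfSim) (hM : TstMeas) : TstAe := by
  change P (List (Fin 5)) {ω | (∃ r, tst r true ω) ∨ ∃ r, tst r false ω}ᶜ = 0
  have h1 : ∀ r, P (List (Fin 5)) {ω | (∃ r, tst r true ω) ∨ ∃ r, tst r false ω}ᶜ ≤
      ENNReal.ofReal (5 * Real.exp 10 * (1 / 2) ^ r) := by
    intro r
    refine (measure_mono ?_).trans (un_total hS hM r)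
    intro ω hω
    have h2 : ¬ ((∃ r, tst r true ω) ∨ ∃ r, tst r false ω) := hω
    exact ⟨fun h3 => h2 (Or.inl ⟨_, h3⟩), fun h3 => h2 (Or.inr ⟨_, h3⟩)⟩
  have h2 : Tendsto (fun r : ℕ => ENNReal.ofReal (5 * Real.exp 10 * (1 / 2) ^ r)) atTop (𝓝 0) := by
    rw [← ENNReal.ofReal_zero]
    apply ENNReal.tendsto_ofReal
    have h3 := (tendsto_pow_atTop_nhds_zero_of_lt_one (r := (1 / 2 : ℝ)) (by norm_num)
      (by norm_num)).const_mul (5 * Real.exp 10)
    rwa [mul_zero] at h3
  exact le_antisymm (ge_of_tendsto' h2 h1) bot_le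

end tae

section rec'

theorem meas_ff : Measurable ff := by
  have h1 : Monotone ff := by
    intro x y hxy
    refine measureReal_mono ?_ (measure_ne_top _ _)
    rintro ω ⟨h1, h2⟩
    exact ⟨h1, lt_of_lt_of_le h2 hxy⟩
  exact h1.measurable

/-- the probability of one pattern -/
theorem pattern (hS : SelfSim) (hM : TstMeas) (i : Fin 5) (A : Fin 5 → Set Lt)
    (hA : ∀ j, MeasurableSet (A j)) :
    (P (List (Fin 5))).real {ω | ω [i] < ω [] ∧ (∃ r, tst r true (sh i ω)) ∧
      ∀ j, j ≠ i → sh j ω ∈ A j} =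
      (∫ y in (0 : ℝ)..1, ff y) * ∏ j ∈ Finset.univ.erase i, (P (List (Fin 5))).real (A j) := by
  classical
  have hIn : MeasurableSet {η : Lt | ∃ r, tst r true η} := by
    have h1 : {η : Lt | ∃ r, tst r true η} = ⋃ r, {η | tst r true η} := by
      ext η
      simp
    rw [h1]
    exact MeasurableSet.iUnion fun r => hM r true
  have h1 : {ω : Lt | ω [i] < ω [] ∧ (∃ r, tst r true (sh i ω)) ∧
      ∀ j, j ≠ i → sh j ω ∈ A j} = {ω | ω [] ∈ Set.univ ∧ ω [i] < ω [] ∧
        ∀ j, sh j ω ∈ (if j = i then {η : Lt | ∃ r, tst r true η} else A j)} := by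
    ext ω
    constructor
    · rintro ⟨h2, h3, h4⟩
      refine ⟨Set.mem_univ _, h2, fun j => ?_⟩
      split_ifs with hj
      · rw [hj]
        exact h3
      · exact h4 j hj
    · rintro ⟨_, h2, h3⟩
      have h4 := h3 i
      rw [if_pos rfl] at h4
      refine ⟨h2, h4, fun j hj => ?_⟩
      have h5 := h3 j
      rw [if_neg hj] at h5
      exact h5
  have h2 := law_step hS i Set.univ MeasurableSet.univ
    (fun j => if j = i then {η : Lt | ∃ r, tst r true η} else A j) (fun j => by
      split_ifs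
      · exact hIn
      · exact hA j)
  rw [← h1, Measure.restrict_univ] at h2
  have h3 : ∏ j ∈ Finset.univ.erase i, P (List (Fin 5))
      (if j = i then {η : Lt | ∃ r, tst r true η} else A j) =
      ∏ j ∈ Finset.univ.erase i, P (List (Fin 5)) (A j) :=
    Finset.prod_congr rfl fun j hj => by rw [if_neg (Finset.ne_of_mem_erase hj)]
  rw [h3, if_pos rfl] at h2
  have h4 : ∀ y : ℝ, P (List (Fin 5)) {η | η ∈ {η : Lt | ∃ r, tst r true η} ∧ η [] < y} =
      ENNReal.ofReal (ff y) := by
    intro y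
    rw [ff, measureReal_def, ENNReal.ofReal_toReal (measure_ne_top _ _)]
    rfl
  have h5 : ∀ y, 0 ≤ ff y := fun y => measureReal_nonneg
  simp only [h4] at h2
  rw [lintegral_mul_const _ meas_ff.ennreal_ofReal] at h2
  rw [measureReal_def, h2, ENNReal.toReal_mul, ENNReal.toReal_prod]
  congr 1
  rw [intervalIntegral.integral_of_le zero_le_one, ← integral_Icc_eq_integral_Ioc]
  change _ = ∫ y, ff y ∂lab
  rw [integral_eq_lintegral_of_nonneg_ae (Eventually.of_forall h5)
    meas_ff.aestronglyMeasurable]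

/-- the patterns: `l = i` stands for all four branches, `l ≠ i` for all but the branch `l` -/
def pat (k : ℕ) (l j : Fin 5) : Set Lt := if j = l then {η | TS k η}ᶜ else {η | TS k η}

theorem ts_cases (hO : TstOut) (k : ℕ) (ω : Lt) (hω : (∃ r, tst r true ω) ∨ ∃ r, tst r false ω)
    (h : TS (k + 1) ω) : ∃ i l : Fin 5, ω [i] < ω [] ∧ (∃ r, tst r true (sh i ω)) ∧
      ∀ j, j ≠ i → sh j ω ∈ pat k l j := by
  classical
  obtain ⟨h1, h2⟩ := h
  have h3 : ∃ r, tst r false ω := by
    rcases hω with ⟨r, hr⟩ | h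
    · exact absurd hr (h1 r)
    · exact h
  obtain ⟨i, hi, r, hr⟩ := (hO ω).1 h3
  have hni : ¬ TS k (sh i ω) := by
    intro h4
    cases k with
    | zero => exact h4 r hr
    | succ k => exact h4.1 r hr
  by_cases hall : ∀ j, j ≠ i → TS k (sh j ω)
  · refine ⟨i, i, hi, ⟨r, hr⟩, fun j hj => ?_⟩
    unfold pat
    rw [if_neg hj]
    exact hall j hj
  · push Not at hall
    obtain ⟨l, hli, hl⟩ := hall
    refine ⟨i, l, hi, ⟨r, hr⟩, fun j hj => ?_⟩
    unfold pat
    split_ifs with hjl
    · rw [hjl]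
      exact hl
    · by_contra h5
      have h6 : ¬ TS k (sh j ω) := h5
      have h7 : {j | TS k (sh j ω)} ⊆ ((Finset.univ \ {i, l, j} : Finset (Fin 5)) : Set (Fin 5)) := by
        intro a ha
        have ha' : TS k (sh a ω) := ha
        simp only [Finset.coe_sdiff, Finset.coe_univ, Finset.coe_insert, Finset.coe_singleton,
          Set.mem_sdiff, Set.mem_univ, Set.mem_insert_iff, Set.mem_singleton_iff, true_and, not_or]
        refine ⟨fun h => ?_, fun h => ?_, fun h => ?_⟩
        · rw [h] at ha'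
          exact hni ha'
        · rw [h] at ha'
          exact hl ha'
        · rw [h] at ha'
          exact h6 ha'
      have h8 := Set.ncard_le_ncard h7 (Finset.finite_toSet _)
      rw [Set.ncard_coe_finset, Finset.card_sdiff_of_subset (Finset.subset_univ _), Finset.card_univ,
        Fintype.card_fin, Finset.card_insert_of_notMem, Finset.card_pair] at h8
      · omega
      · exact fun h => hjl h.symm
      · simp only [Finset.mem_insert, Finset.mem_singleton, not_or]
        exact ⟨hli.symm, hj.symm⟩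

theorem t_zzRec (hS : SelfSim) (hO : TstOut) (hA : TstAe) (hM : TstMeas) (hTm : TSMeas) :
    ZzRec := by
  classical
  have hIn : MeasurableSet {η : Lt | ∃ r, tst r true η} := by
    have h1 : {η : Lt | ∃ r, tst r true η} = ⋃ r, {η | tst r true η} := by
      ext η
      simp
    rw [h1]
    exact MeasurableSet.iUnion fun r => hM r true
  constructor
  · -- the first value
    have h1 : {ω : Lt | TS 0 ω} = {ω | ∃ r, tst r true ω}ᶜ := by
      ext ω
      change (∀ r, ¬ tst r true ω) ↔ ¬ ∃ r, tst r true ω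
      push Not
      rfl
    have h2 : ff 1 = (P (List (Fin 5))).real {ω | ∃ r, tst r true ω} := by
      rw [ff]
      apply measureReal_congr
      have h3 : ∀ᵐ ω ∂(P (List (Fin 5))), ω [] < (1 : ℝ) := by
        change P (List (Fin 5)) {ω | ω [] < (1 : ℝ)}ᶜ = 0
        have h4 : ({ω : Lt | ω [] < (1 : ℝ)}ᶜ) =
            (fun ω : Lt => (ω [], fun i : Fin 5 => sh i ω)) ⁻¹' (Set.Ici 1 ×ˢ Set.univ) := by
          ext ω
          simp
        rw [h4, hS.measure_preimage (measurableSet_Ici.prod MeasurableSet.univ).nullMeasurableSet,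
          Measure.prod_prod, measure_univ, mul_one, lab, Measure.restrict_apply measurableSet_Ici]
        have h5 : Set.Ici (1 : ℝ) ∩ Set.Icc 0 1 = {1} := by
          ext y
          simp only [Set.mem_inter_iff, Set.mem_Ici, Set.mem_Icc, Set.mem_singleton_iff]
          constructor
          · rintro ⟨a, _, b⟩
            exact le_antisymm b a
          · rintro rfl
            norm_num
        rw [h5, Real.volume_singleton]
      filter_upwards [h3] with ω hω
      apply propext
      exact ⟨fun h => h.1, fun h => ⟨h, hω⟩⟩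
    rw [zz, h1, probReal_compl_eq_one_sub hIn, h2]
  · intro k
    have hpm : ∀ l j, MeasurableSet (pat k l j) := by
      intro l j
      unfold pat
      split_ifs
      · exact (hTm k).compl
      · exact hTm k
    have h1 : zz (k + 1) ≤ ∑ i : Fin 5, ∑ l : Fin 5, (P (List (Fin 5))).real
        {ω | ω [i] < ω [] ∧ (∃ r, tst r true (sh i ω)) ∧ ∀ j, j ≠ i → sh j ω ∈ pat k l j} := by
      have h2 : (P (List (Fin 5))).real {ω | TS (k + 1) ω} ≤ (P (List (Fin 5))).real
          (⋃ i : Fin 5, ⋃ l : Fin 5, {ω | ω [i] < ω [] ∧ (∃ r, tst r true (sh i ω)) ∧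
            ∀ j, j ≠ i → sh j ω ∈ pat k l j}) := by
        rw [measureReal_def, measureReal_def]
        refine ENNReal.toReal_mono (measure_ne_top _ _) (measure_mono_ae ?_)
        filter_upwards [hA] with ω hω h3
        obtain ⟨i, l, h4⟩ := ts_cases hO k ω hω h3
        exact Set.mem_iUnion.2 ⟨i, Set.mem_iUnion.2 ⟨l, h4⟩⟩
      refine h2.trans ((measureReal_iUnion_fintype_le _).trans ?_)
      exact Finset.sum_le_sum fun i _ => measureReal_iUnion_fintype_le _
    refine h1.trans (le_of_eq ?_)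
    have h2 : ∀ l j : Fin 5, (P (List (Fin 5))).real (pat k l j) =
        if j = l then 1 - zz k else zz k := by
      intro l j
      unfold pat
      split_ifs
      · rw [probReal_compl_eq_one_sub (hTm k), zz]
      · rfl
    have h3 : ∀ i l : Fin 5, (P (List (Fin 5))).real
        {ω | ω [i] < ω [] ∧ (∃ r, tst r true (sh i ω)) ∧ ∀ j, j ≠ i → sh j ω ∈ pat k l j} =
        (∫ y in (0 : ℝ)..1, ff y) * ∏ j ∈ Finset.univ.erase i, if j = l then 1 - zz k else zz k := by
      intro i l
      rw [pattern hS hM i _ (hpm l)]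
      simp only [h2]
    simp only [h3, ← Finset.mul_sum]
    have h4 : ∀ z : ℝ, ∑ i : Fin 5, ∑ l : Fin 5, ∏ j ∈ Finset.univ.erase i,
        (if j = l then 1 - z else z) = 5 * (4 * z ^ 3 - 3 * z ^ 4) := by
      intro z
      have e : ∀ i l : Fin 5, ∏ j ∈ Finset.univ.erase i, (if j = l then 1 - z else z) =
          if i = l then z ^ 4 else (1 - z) * z ^ 3 := by
        intro i l
        have hc : (Finset.univ.erase i : Finset (Fin 5)).card = 4 := by
          rw [Finset.card_erase_of_mem (Finset.mem_univ i), Finset.card_univ, Fintype.card_fin]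
        split_ifs with hil
        · rw [Finset.prod_congr rfl (g := fun _ => z) fun j hj => by
            rw [if_neg (hil ▸ Finset.ne_of_mem_erase hj)], Finset.prod_const, hc]
        · have hl : l ∈ Finset.univ.erase i :=
            Finset.mem_erase.2 ⟨fun h => hil h.symm, Finset.mem_univ l⟩
          rw [← Finset.mul_prod_erase _ _ hl, if_pos rfl,
            Finset.prod_congr rfl (g := fun _ => z) fun j hj => by
              rw [if_neg (Finset.ne_of_mem_erase hj)], Finset.prod_const,
            Finset.card_erase_of_mem hl, hc]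
      have e2 : ∀ i : Fin 5, ∑ l : Fin 5, (if i = l then z ^ 4 else (1 - z) * z ^ 3) =
          z ^ 4 + 4 * ((1 - z) * z ^ 3) := by
        intro i
        have e3 : ∀ l : Fin 5, (if i = l then z ^ 4 else (1 - z) * z ^ 3) =
            (if i = l then (z ^ 4 - (1 - z) * z ^ 3) else 0) + (1 - z) * z ^ 3 := by
          intro l
          split_ifs <;> ring
        rw [Finset.sum_congr rfl fun l _ => e3 l, Finset.sum_add_distrib, Finset.sum_ite_eq,
          if_pos (Finset.mem_univ i), Finset.sum_const, Finset.card_univ, Fintype.card_fin,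
          nsmul_eq_mul]
        push_cast
        ring
      simp only [e, e2]
      rw [Finset.sum_const, Finset.card_univ, Fintype.card_fin, nsmul_eq_mul]
      push_cast
      ring
    rw [h4]
    ring

end rec'

end Pool.Agent.Y761.T6
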